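import Pool.Agent.Lib.MP_5349a4_pr.M.Iface4
import Pool.Agent.Lib.MP_5349a4_pr.M.Base

/-!
# MEET: two disjoint invasion trees with positive probability ((11.4) of Paper.md)
-/

set_option autoImplicit false
open MeasureTheory Set
open scoped ENNReal NNReal Pointwise

namespace Pool.Agent.Lib.MP_5349a4_pr.H72

variable {d : ℕ}

/-- the labels before `n` are at most `2` for both invasions, and these are disjoint at time `n` -/
def EE (n : ℕ) (x y : Eu d) (Q : Set (Eu d)) : Prop :=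
  good (fun _ => 2) Q x n ∧ good (fun _ => 2) Q y n ∧ Disjoint (inv Q x n) (inv Q y n)

noncomputable def gg (n : ℕ) (y₀ x y : Eu d) (Q : Set (Eu d)) : ℝ≥0∞ :=
  ind (x ∈ bal 0 1 ∧ y ∈ bal y₀ 1 ∧ EE n x y Q)

noncomputable def ff (n : ℕ) (y₀ : Eu d) (Q : Set (Eu d)) : ℝ≥0∞ :=
  ∑' x : Q, ∑' y : Q, gg n y₀ x y Q

theorem lf_finite {Q : Set (Eu d)} (h : Q.Finite) : LF Q := fun _ _ => h.inter_of_left _

theorem lf_inter {Q : Set (Eu d)} (h : LF Q) (V : Set (Eu d)) : LF (Q ∩ V) := fun A hA =>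
  (h A hA).subset fun _ hx => ⟨hx.1.1, hx.2⟩

theorem ee_anti (hD : InvDStatement) {Q : Set (Eu d)} (hQ : LF Q) {n : ℕ} {x y : Eu d}
    (h : EE (n + 1) x y Q) : EE n x y Q := by
  obtain ⟨h1, h2, h3⟩ := h
  refine ⟨fun j hj => h1 j (by omega), fun j hj => h2 j (by omega), ?_⟩
  exact h3.mono ((hD d Q Q x hQ hQ).1 n).1 ((hD d Q Q y hQ hQ).1 n).1

theorem ee_anti' (hD : InvDStatement) {Q : Set (Eu d)} (hQ : LF Q) {n m : ℕ} {x y : Eu d}
    (hnm : n ≤ m) (h : EE m x y Q) : EE n x y Q := by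
  induction m, hnm using Nat.le_induction with
  | base => exact h
  | succ m _ ih => exact ih (ee_anti hD hQ h)

theorem ee_loc (hD : InvDStatement) {P Q : Set (Eu d)} (hP : LF P) (hQ : LF Q) {n : ℕ} {x y : Eu d}
    (h1 : P ∩ bal x (2 * n + 2) = Q ∩ bal x (2 * n + 2))
    (h2 : P ∩ bal y (2 * n + 2) = Q ∩ bal y (2 * n + 2)) (h : EE n x y P) : EE n x y Q := by
  obtain ⟨a1, a2, a3⟩ := h
  have b1 := (hD d P Q x hP hQ).2.2.2.2.1 (fun _ => 2) n (fun _ => le_refl _) a1 h1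
  have b2 := (hD d P Q y hP hQ).2.2.2.2.1 (fun _ => 2) n (fun _ => le_refl _) a2 h2
  refine ⟨b1.1, b2.1, ?_⟩
  rw [b1.2 n le_rfl, b2.2 n le_rfl]
  exact a3

theorem inv_insert (hSc : InvScStatement) (P : Set (Eu d)) (o : Eu d) (k : ℕ) :
    inv (insert o P) o k = inv P o k ∧ lab (insert o P) o k = lab P o k := by
  have h1 := hSc d (insert o P) o k
  have h2 := hSc d P o k
  have h3 : insert o P \ {o} = P \ {o} := by
    ext z
    simp only [mem_sdiff, mem_insert_iff, mem_singleton_iff]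
    tauto
  rw [← h1.1, ← h1.2.1, h3, h2.1, h2.2.1]
  exact ⟨rfl, rfl⟩

theorem ee_insert (hSc : InvScStatement) (P : Set (Eu d)) (x y : Eu d) (n : ℕ)
    (h1 : ∀ j < n, lab (insert y P) x j ≤ 2) (h2 : ∀ j < n, lab (insert x P) y j ≤ 2)
    (h3 : Disjoint (inv (insert y P) x n) (inv (insert x P) y n)) :
    EE n x y (insert x (insert y P)) := by
  have e2 : (ENNReal.ofReal 2) = 2 := by simp
  refine ⟨fun j hj => ?_, fun j hj => ?_, ?_⟩
  · rw [(inv_insert hSc _ x j).2, e2]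
    exact h1 j hj
  · rw [Set.insert_comm, (inv_insert hSc _ y j).2, e2]
    exact h2 j hj
  · rw [(inv_insert hSc _ x n).1, Set.insert_comm, (inv_insert hSc _ y n).1]
    exact h3

theorem meas_ee (hD : InvDStatement) (hM : InvMStatement) (hS : MSumStatement) (n : ℕ) :
    MeasurableSet {q : (Eu d × Eu d) × Cfg (Eu d) | EE n q.1.1 q.1.2 (pt q.2)} := by
  have hinv := (hM d n).1
  have hgood := (hM d n).2.2.2.1 (fun _ => 2)
  have m1 : MeasurableSet {q : (Eu d × Eu d) × Cfg (Eu d) |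
      good (fun _ => 2) (pt q.2) q.1.1 n} :=
    (show Measurable fun q : (Eu d × Eu d) × Cfg (Eu d) => (q.1.1, q.2) by fun_prop) hgood
  have m2 : MeasurableSet {q : (Eu d × Eu d) × Cfg (Eu d) |
      good (fun _ => 2) (pt q.2) q.1.2 n} :=
    (show Measurable fun q : (Eu d × Eu d) × Cfg (Eu d) => (q.1.2, q.2) by fun_prop) hgood
  have m3 : MeasurableSet {q : (Eu d × Eu d) × Cfg (Eu d) |
      q.1.1 ∈ inv (pt q.2) q.1.1 n ∧ q.1.1 ∈ inv (pt q.2) q.1.2 n} := by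
    refine MeasurableSet.inter ?_ ?_
    · exact (show Measurable fun q : (Eu d × Eu d) × Cfg (Eu d) => (q.1.1, q.1.1, q.2) by
        fun_prop) hinv
    · exact (show Measurable fun q : (Eu d × Eu d) × Cfg (Eu d) => (q.1.2, q.1.1, q.2) by
        fun_prop) hinv
  have m4 : MeasurableSet {q : (Eu d × Eu d) × Cfg (Eu d) | ∃ p ∈ pt q.2,
      p ∈ inv (pt q.2) q.1.1 n ∧ p ∈ inv (pt q.2) q.1.2 n} := by
    refine hS.2.1 (Eu d × Eu d) (Eu d)
      (fun t p Q => p ∈ inv Q t.1 n ∧ p ∈ inv Q t.2 n) ?_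
    refine MeasurableSet.inter ?_ ?_
    · exact (show Measurable fun q : (Eu d × Eu d) × Eu d × Cfg (Eu d) =>
        (q.1.1, q.2.1, q.2.2) by fun_prop) hinv
    · exact (show Measurable fun q : (Eu d × Eu d) × Eu d × Cfg (Eu d) =>
        (q.1.2, q.2.1, q.2.2) by fun_prop) hinv
  have e : {q : (Eu d × Eu d) × Cfg (Eu d) | EE n q.1.1 q.1.2 (pt q.2)} =
      ({q | good (fun _ => 2) (pt q.2) q.1.1 n} ∩ {q | good (fun _ => 2) (pt q.2) q.1.2 n}) ∩
      ({q | q.1.1 ∈ inv (pt q.2) q.1.1 n ∧ q.1.1 ∈ inv (pt q.2) q.1.2 n} ∪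
        {q | ∃ p ∈ pt q.2, p ∈ inv (pt q.2) q.1.1 n ∧ p ∈ inv (pt q.2) q.1.2 n})ᶜ := by
    ext q
    simp only [EE, mem_ofPred_eq, mem_inter_iff, mem_compl_iff, mem_union]
    rw [Set.disjoint_left]
    constructor
    · rintro ⟨h1, h2, h3⟩
      refine ⟨⟨h1, h2⟩, ?_⟩
      rintro (⟨h4, h5⟩ | ⟨p, -, h4, h5⟩)
      · exact h3 h4 h5
      · exact h3 h4 h5
    · rintro ⟨⟨h1, h2⟩, h3⟩
      refine ⟨h1, h2, fun p h4 h5 => h3 ?_⟩
      have h6 := ((hD d (pt q.2) (pt q.2) q.1.1 (lf_finite (pt_finite _))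
        (lf_finite (pt_finite _))).1 n).2.1 h4
      rcases h6 with h6 | h6
      · rw [h6] at h4 h5
        exact Or.inl ⟨h4, h5⟩
      · exact Or.inr ⟨p, h6, h4, h5⟩
  rw [e]
  exact (m1.inter m2).inter (m3.union m4).compl

theorem meas_gg (hD : InvDStatement) (hM : InvMStatement) (hS : MSumStatement) (n : ℕ) (y₀ : Eu d) :
    Measurable fun q : Eu d × Eu d × Cfg (Eu d) => gg n y₀ q.1 q.2.1 (pt q.2.2) := by
  unfold gg
  apply measurable_ind
  refine MeasurableSet.inter ?_ (MeasurableSet.inter ?_ ?_)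
  · exact (show Measurable fun q : Eu d × Eu d × Cfg (Eu d) => q.1 by fun_prop)
      (Metric.isClosed_closedBall.measurableSet)
  · exact (show Measurable fun q : Eu d × Eu d × Cfg (Eu d) => q.2.1 by fun_prop)
      (Metric.isClosed_closedBall.measurableSet)
  · exact (show Measurable fun q : Eu d × Eu d × Cfg (Eu d) => ((q.1, q.2.1), q.2.2) by fun_prop)
      (meas_ee hD hM hS n)

theorem meas_ff (hD : InvDStatement) (hM : InvMStatement) (hS : MSumStatement) (n : ℕ) (y₀ : Eu d) :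
    Measurable (fun q : Eu d × Cfg (Eu d) => ∑' y : (pt q.2 : Set (Eu d)), gg n y₀ q.1 y (pt q.2)) ∧
    CM (ff n y₀ : Set (Eu d) → ℝ≥0∞) := by
  have h1 : Measurable (fun q : Eu d × Cfg (Eu d) =>
      ∑' y : (pt q.2 : Set (Eu d)), gg n y₀ q.1 y (pt q.2)) :=
    hS.1 (Eu d) (Eu d) (fun x y Q => gg n y₀ x y Q) (meas_gg hD hM hS n y₀)
  refine ⟨h1, ?_⟩
  have h2 := hS.1 Unit (Eu d) (fun _ x Q => ∑' y : Q, gg n y₀ x y Q)
    (h1.comp (show Measurable fun q : Unit × Eu d × Cfg (Eu d) => (q.2.1, q.2.2) by fun_prop))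
  exact h2.comp (show Measurable fun ω : Cfg (Eu d) => ((), ω) by fun_prop)

theorem ff_le {n n' : ℕ} {y₀ : Eu d} {Q Q' : Set (Eu d)}
    (h : ∀ x ∈ Q, ∀ y ∈ Q, x ∈ bal 0 1 → y ∈ bal y₀ 1 → EE n x y Q →
      x ∈ Q' ∧ y ∈ Q' ∧ EE n' x y Q') : ff n y₀ Q ≤ ff n' y₀ Q' := by
  unfold ff
  rw [tsum_subtype Q (fun x => ∑' y : Q, gg n y₀ x y Q),
    tsum_subtype Q' (fun x => ∑' y : Q', gg n' y₀ x y Q')]
  refine ENNReal.tsum_le_tsum fun x => ?_
  by_cases hx : x ∈ Q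
  · rw [indicator_of_mem hx, tsum_subtype Q (fun y => gg n y₀ x y Q)]
    by_cases hx' : x ∈ Q'
    · rw [indicator_of_mem hx', tsum_subtype Q' (fun y => gg n' y₀ x y Q')]
      refine ENNReal.tsum_le_tsum fun y => ?_
      by_cases hy : y ∈ Q
      · rw [indicator_of_mem hy]
        unfold gg
        by_cases hc : x ∈ bal 0 1 ∧ y ∈ bal y₀ 1 ∧ EE n x y Q
        · obtain ⟨h1, h2, h3⟩ := h x hx y hy hc.1 hc.2.1 hc.2.2
          rw [indicator_of_mem h2, ind_of hc, ind_of ⟨hc.1, hc.2.1, h3⟩]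
        · rw [ind_not hc]
          exact zero_le
      · rw [indicator_of_notMem hy]
        exact zero_le
    · rw [indicator_of_notMem hx']
      refine le_of_eq ?_
      rw [ENNReal.tsum_eq_zero]
      intro y
      by_cases hy : y ∈ Q
      · rw [indicator_of_mem hy]
        unfold gg
        apply ind_not
        intro hc
        exact hx' (h x hx y hy hc.1 hc.2.1 hc.2.2).1
      · rw [indicator_of_notMem hy]
  · rw [indicator_of_notMem hx]
    exact zero_le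

theorem ff_ne_zero {n : ℕ} {y₀ : Eu d} {Q : Set (Eu d)} (h : ff n y₀ Q ≠ 0) :
    ∃ x ∈ Q, ∃ y ∈ Q, x ∈ bal 0 1 ∧ y ∈ bal y₀ 1 ∧ EE n x y Q := by
  by_contra hcon
  push Not at hcon
  apply h
  unfold ff
  rw [ENNReal.tsum_eq_zero]
  intro x
  rw [ENNReal.tsum_eq_zero]
  intro y
  unfold gg
  apply ind_not
  rintro ⟨h1, h2, h3⟩
  exact hcon x x.2 y y.2 h1 h2 h3

theorem leb_inter (lam : ℝ≥0) {V B : Set (Eu d)} (hB : MeasurableSet B) (h : B ⊆ V) :
    leb lam V B = lam * volume B := by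
  unfold leb
  rw [Measure.smul_apply, Measure.restrict_apply hB, inter_eq_left.mpr h, smul_eq_mul]

/-- lower bound for the mean of `ff` -/
theorem lower (hSc : InvScStatement) (hD : InvDStatement) (hM : InvMStatement)
    (hS : MSumStatement) (hMe : MeckeStatement) (hO : MOpsStatement) (hd : 1 ≤ d) (lam : ℝ≥0)
    (y₀ : Eu d) (c : ℝ≥0) (n : ℕ) (L : ℝ) (hL : 1 ≤ L) (hL2 : ‖y₀‖ + 1 ≤ L)
    (h : ∀ x y : Eu d, x ∈ bal 0 1 → y ∈ bal y₀ 1 →
      (c : ℝ≥0∞) ≤ PL (leb lam (bal (0 : Eu d) L))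
        {ω | (∀ j < n, lab (insert y (pt ω)) x j ≤ 2) ∧ (∀ j < n, lab (insert x (pt ω)) y j ≤ 2) ∧
          Disjoint (inv (insert y (pt ω)) x n) (inv (insert x (pt ω)) y n)}) :
    c * (lam * volume (bal (0 : Eu d) 1)) * (lam * volume (bal y₀ 1)) ≤
      ∫⁻ ω, ff n y₀ (pt ω) ∂PL (leb lam (bal (0 : Eu d) L)) := by
  have hfin : IsFiniteMeasure (leb lam (bal (0 : Eu d) L)) := finite_leb lam (dom_bal 0 L).2
  have hna : NullSingletonClass (leb lam (bal (0 : Eu d) L)) := noAtoms_leb hd lam _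
  obtain ⟨cc, hcc, hcc2⟩ := hO.2.1 (Eu d)
  have h1 := (hMe (Eu d) (leb lam (bal (0 : Eu d) L)) (fun x Q => ∑' y : Q, gg n y₀ x y Q)
    (meas_ff hD hM hS n y₀).1).1
  have h2 : ∫⁻ ω, ff n y₀ (pt ω) ∂PL (leb lam (bal (0 : Eu d) L)) =
      ∫⁻ x, ∫⁻ ω, ∑' y : (insert x (pt ω) : Set (Eu d)), gg n y₀ x y (insert x (pt ω))
        ∂PL (leb lam (bal (0 : Eu d) L)) ∂(leb lam (bal (0 : Eu d) L)) := h1
  rw [h2]
  have h3 : ∀ x : Eu d, x ∈ bal 0 1 → c * (lam * volume (bal y₀ 1)) ≤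
      ∫⁻ ω, ∑' y : (insert x (pt ω) : Set (Eu d)), gg n y₀ x y (insert x (pt ω))
        ∂PL (leb lam (bal (0 : Eu d) L)) := by
    intro x hx
    have h4 := (hMe (Eu d) (leb lam (bal (0 : Eu d) L))
      (fun y Q => gg n y₀ x y (insert x Q)) (by
        have h0 := (meas_gg hD hM hS n y₀).comp
          (show Measurable fun q : Eu d × Cfg (Eu d) => (x, q.1, cc (x, q.2)) by fun_prop)
        have e : (fun q : Eu d × Cfg (Eu d) => gg n y₀ x q.1 (insert x (pt q.2))) =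
            (fun q : Eu d × Eu d × Cfg (Eu d) => gg n y₀ q.1 q.2.1 (pt q.2.2)) ∘
              (fun q : Eu d × Cfg (Eu d) => (x, q.1, cc (x, q.2))) := by
          funext q
          simp only [Function.comp]
          rw [hcc2]
        rw [e]
        exact h0)).1
    calc (c : ℝ≥0∞) * (lam * volume (bal y₀ 1))
        = ∫⁻ y, ind (y ∈ bal y₀ 1) * c ∂(leb lam (bal (0 : Eu d) L)) := by
          rw [lintegral_mul_ind (dom_bal y₀ 1).1, lintegral_const, Measure.restrict_apply_univ,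
            leb_inter lam (dom_bal y₀ 1).1]
          intro z hz
          unfold bal at *
          rw [Metric.mem_closedBall] at *
          have := dist_triangle z y₀ 0
          rw [dist_zero_right y₀] at this
          linarith
      _ ≤ ∫⁻ y, ∫⁻ ω, gg n y₀ x y (insert x (insert y (pt ω))) ∂PL (leb lam (bal (0 : Eu d) L))
            ∂(leb lam (bal (0 : Eu d) L)) := by
          refine lintegral_mono fun y => ?_
          by_cases hy : y ∈ bal y₀ 1
          · rw [ind_of hy, one_mul]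
            refine (h x y hx hy).trans ?_
            have hms : MeasurableSet {ω : Cfg (Eu d) | EE n x y (insert x (insert y (pt ω)))} := by
              have h0 := (show Measurable fun ω : Cfg (Eu d) => ((x, y), cc (x, cc (y, ω))) by
                fun_prop) (meas_ee hD hM hS n)
              have e : {ω : Cfg (Eu d) | EE n x y (insert x (insert y (pt ω)))} =
                  (fun ω : Cfg (Eu d) => ((x, y), cc (x, cc (y, ω)))) ⁻¹'
                    {q : (Eu d × Eu d) × Cfg (Eu d) | EE n q.1.1 q.1.2 (pt q.2)} := by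
                ext ω
                simp only [mem_preimage, mem_ofPred_eq]
                rw [hcc2, hcc2]
              rw [e]
              exact h0
            have e2 : (fun ω : Cfg (Eu d) => gg n y₀ x y (insert x (insert y (pt ω)))) =
                fun ω => ind (EE n x y (insert x (insert y (pt ω)))) := by
              funext ω
              unfold gg
              apply ind_congr
              tauto
            rw [e2, lintegral_ind hms]
            apply measure_mono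
            rintro ω ⟨b1, b2, b3⟩
            exact ee_insert hSc (pt ω) x y n b1 b2 b3
          · rw [ind_not hy, zero_mul]
            exact zero_le
      _ = ∫⁻ ω, ∑' y : (pt ω : Set (Eu d)), gg n y₀ x y (insert x (pt ω))
            ∂PL (leb lam (bal (0 : Eu d) L)) := h4.symm
      _ ≤ _ := lintegral_mono fun ω => ENNReal.tsum_mono_subtype
          (fun y => gg n y₀ x y (insert x (pt ω))) (subset_insert x (pt ω))
  calc (c : ℝ≥0∞) * (lam * volume (bal (0 : Eu d) 1)) * (lam * volume (bal y₀ 1))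
      = ∫⁻ x, ind (x ∈ bal (0 : Eu d) 1) * (c * (lam * volume (bal y₀ 1)))
          ∂(leb lam (bal (0 : Eu d) L)) := by
        rw [lintegral_mul_ind (dom_bal 0 1).1, lintegral_const, Measure.restrict_apply_univ,
          leb_inter lam (dom_bal 0 1).1]
        · ring
        · exact Metric.closedBall_subset_closedBall hL
    _ ≤ _ := by
        refine lintegral_mono fun x => ?_
        by_cases hx : x ∈ bal (0 : Eu d) 1
        · rw [ind_of hx, one_mul]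
          exact h3 x hx
        · rw [ind_not hx, zero_mul]
          exact zero_le

/-- the mean of `ff 0` is finite -/
theorem upper (hMe : MeckeStatement) (hS : MSumStatement) (hPr : ProbStatement) (hd : 1 ≤ d)
    (lam : ℝ≥0) (y₀ : Eu d) (n : ℕ) (L : ℝ) :
    ∫⁻ ω, ff n y₀ (pt ω) ∂PL (leb lam (bal (0 : Eu d) L)) ≠ ∞ := by
  have hfin : IsFiniteMeasure (leb lam (bal (0 : Eu d) L)) := finite_leb lam (dom_bal 0 L).2
  have hna : NullSingletonClass (leb lam (bal (0 : Eu d) L)) := noAtoms_leb hd lam _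
  have hpr := (hPr (Eu d) (leb lam (bal (0 : Eu d) L))).1
  have m1 : Measurable (fun q : Eu d × Cfg (Eu d) => ∑' _ : (pt q.2 : Set (Eu d)), (1 : ℝ≥0∞)) :=
    hS.1 (Eu d) (Eu d) (fun _ _ _ => 1) measurable_const
  have m2 : Measurable (fun q : Cfg (Eu d) => ∑' _ : (pt q : Set (Eu d)), (1 : ℝ≥0∞)) :=
    m1.comp (show Measurable fun ω : Cfg (Eu d) => ((0 : Eu d), ω) by fun_prop)
  have h1 : ∫⁻ ω, ∑' _ : (pt ω : Set (Eu d)), (1 : ℝ≥0∞) ∂PL (leb lam (bal (0 : Eu d) L)) =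
      leb lam (bal (0 : Eu d) L) univ := by
    rw [(hMe (Eu d) (leb lam (bal (0 : Eu d) L)) (fun _ _ => 1) measurable_const).1]
    simp
  have h2 := (hMe (Eu d) (leb lam (bal (0 : Eu d) L)) (fun _ Q => ∑' _ : Q, 1) m1).1
  have h3 : ∫⁻ ω, ff n y₀ (pt ω) ∂PL (leb lam (bal (0 : Eu d) L)) ≤
      ∫⁻ ω, ∑' _ : (pt ω : Set (Eu d)), ∑' _ : (pt ω : Set (Eu d)), (1 : ℝ≥0∞)
        ∂PL (leb lam (bal (0 : Eu d) L)) :=
    lintegral_mono fun ω => ENNReal.tsum_le_tsum fun x => ENNReal.tsum_le_tsum fun y =>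
      ind_le_one _
  refine ne_top_of_le_ne_top ?_ h3
  rw [h2]
  have h4 : ∫⁻ x, ∫⁻ ω, ∑' _ : (insert x (pt ω) : Set (Eu d)), (1 : ℝ≥0∞)
        ∂PL (leb lam (bal (0 : Eu d) L)) ∂(leb lam (bal (0 : Eu d) L)) ≤
      ∫⁻ x, (1 + leb lam (bal (0 : Eu d) L) univ) ∂(leb lam (bal (0 : Eu d) L)) := by
    refine lintegral_mono fun x => ?_
    have h5 : ∫⁻ _, (1 : ℝ≥0∞) ∂PL (leb lam (bal (0 : Eu d) L)) = 1 := by simp
    calc ∫⁻ ω, ∑' _ : (insert x (pt ω) : Set (Eu d)), (1 : ℝ≥0∞)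
          ∂PL (leb lam (bal (0 : Eu d) L))
        ≤ ∫⁻ ω, (1 + ∑' _ : (pt ω : Set (Eu d)), (1 : ℝ≥0∞))
          ∂PL (leb lam (bal (0 : Eu d) L)) := by
          refine lintegral_mono fun ω => ?_
          have h6 := ENNReal.tsum_union_le (fun _ : Eu d => (1 : ℝ≥0∞)) {x} (pt ω)
          rw [singleton_union] at h6
          refine h6.trans (le_of_eq ?_)
          simp
      _ = 1 + leb lam (bal (0 : Eu d) L) univ := by
          rw [lintegral_add_left measurable_const, h5, h1]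
  refine ne_top_of_le_ne_top ?_ h4
  rw [lintegral_const]
  exact ENNReal.mul_ne_top (ENNReal.add_ne_top.mpr ⟨ENNReal.one_ne_top, measure_ne_top _ _⟩)
    (measure_ne_top _ _)

/-- the law of the scaled process -/
theorem scaled {Ω : Type} [MeasurableSpace Ω] {Pr : Measure Ω} {S : Ω → Set (Eu d)}
    (hI : ImgStatement) (hO : MOpsStatement) (hP : IsProc d Pr S) {lam : ℝ≥0}
    {a : ℝ} (ha : 0 < a) (had : a ^ d = lam) {V : Set (Eu d)} (hV : Dom V)
    {f : Set (Eu d) → ℝ≥0∞} (hf : CM f) :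
    Measurable (fun ω => f ((fun z => a⁻¹ • z) '' S ω ∩ V)) ∧
    ∫⁻ ω, f ((fun z => a⁻¹ • z) '' S ω ∩ V) ∂Pr = ∫⁻ ω, f (pt ω) ∂PL (leb lam V) := by
  have hme : Measurable (fun z : Eu d => a⁻¹ • z) := measurable_const_smul _
  obtain ⟨m, hm, hm2⟩ := hO.2.2 (Eu d) (Eu d) (fun z => a⁻¹ • z) hme
  have hV' : Dom ((fun z : Eu d => a⁻¹ • z) ⁻¹' V) := by
    refine ⟨hme hV.1, ?_⟩
    have e : (fun z : Eu d => a⁻¹ • z) ⁻¹' V = a • V := by
      rw [Set.preimage_smul_inv₀ ha.ne']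
    rw [e]
    exact hV.2.smul₀ a
  have hg : CM (fun Q : Set (Eu d) => f ((fun z => a⁻¹ • z) '' Q)) := by
    unfold CM at *
    have h0 := hf.comp hm
    have e : (fun ω : Cfg (Eu d) => f ((fun z => a⁻¹ • z) '' pt ω)) =
        (fun ω : Cfg (Eu d) => f (pt ω)) ∘ m := by
      funext ω
      simp only [Function.comp]
      rw [hm2]
    rw [e]
    exact h0
  have e1 : ∀ ω, (fun z : Eu d => a⁻¹ • z) '' S ω ∩ V =
      (fun z => a⁻¹ • z) '' (S ω ∩ (fun z : Eu d => a⁻¹ • z) ⁻¹' V) := fun ω => by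
    rw [image_inter_preimage]
  obtain ⟨h1, h2⟩ := hP.law _ hV' _ hg
  simp only [e1]
  refine ⟨h1, ?_⟩
  rw [h2]
  have hfin : IsFiniteMeasure (leb 1 ((fun z : Eu d => a⁻¹ • z) ⁻¹' V)) := finite_leb 1 hV'.2
  rw [← hI (Eu d) (Eu d) (leb 1 ((fun z : Eu d => a⁻¹ • z) ⁻¹' V)) (fun z => a⁻¹ • z) f hme hf]
  congr 2
  unfold leb
  rw [ENNReal.coe_one, one_smul, ← Measure.restrict_map hme hV.1,
    Measure.map_addHaar_smul volume (inv_ne_zero ha.ne'), Measure.restrict_smul]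
  congr 1
  rw [finrank_euclideanSpace_fin, inv_pow, inv_inv, had, abs_of_nonneg (NNReal.coe_nonneg lam)]
  exact ENNReal.ofReal_coe_nnreal

theorem inv_mono (hD : InvDStatement) {P : Set (Eu d)} (hP : LF P) (o : Eu d) {k l : ℕ}
    (h : k ≤ l) : inv P o k ⊆ inv P o l :=
  monotone_nat_of_le_succ (f := fun k => inv P o k) (fun k => ((hD d P P o hP hP).1 k).1) h

theorem meet (hT : TwoStatement) (hSc : InvScStatement) (hD : InvDStatement)
    (hM : InvMStatement) (hMe : MeckeStatement) (hS : MSumStatement) (hO : MOpsStatement)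
    (hI : ImgStatement) (hPr : ProbStatement) : MeetStatement := by
  intro d lam κ A hC Ω _ Pr S hP
  obtain ⟨y₀, c, hy, hc, hcc⟩ := hT d lam κ A hC
  have hd : 1 ≤ d := by
    have h1 := hC.hd
    have h2 := hC.hκ
    have h3 : 1 ≤ κ ^ 2 := Nat.one_le_pow _ _ h2
    omega
  have hlam := hC.hlam
  have hd0 : (d : ℝ) ≠ 0 := by
    have : (1 : ℝ) ≤ d := by exact_mod_cast hd
    linarith
  obtain ⟨a, ha, had⟩ : ∃ a : ℝ, 0 < a ∧ a ^ d = lam := by
    refine ⟨(lam : ℝ) ^ (1 / (d : ℝ)), Real.rpow_pos_of_pos (by exact_mod_cast hlam) _, ?_⟩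
    rw [← Real.rpow_natCast, ← Real.rpow_mul (NNReal.coe_nonneg lam), one_div,
      inv_mul_cancel₀ hd0, Real.rpow_one]
  have hprob := hP.prob
  obtain ⟨S', hS'⟩ : ∃ S' : Ω → Set (Eu d), ∀ ω, S' ω = (fun z => a⁻¹ • z) '' S ω :=
    ⟨_, fun _ => rfl⟩
  have hlf : ∀ ω, LF (S' ω) := by
    intro ω B hB
    rw [hS', ← image_inter_preimage]
    refine (hP.lf ω _ ?_).image _
    have e : (fun z : Eu d => a⁻¹ • z) ⁻¹' B = a • B := by
      rw [Set.preimage_smul_inv₀ ha.ne']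
    rw [e]
    exact hB.smul₀ a
  have hlaw : ∀ (V : Set (Eu d)), Dom V → ∀ f : Set (Eu d) → ℝ≥0∞, CM f →
      Measurable (fun ω => f (S' ω ∩ V)) ∧
      ∫⁻ ω, f (S' ω ∩ V) ∂Pr = ∫⁻ ω, f (pt ω) ∂PL (leb lam V) := by
    intro V hV f hf
    simp only [hS']
    exact scaled hI hO hP ha had hV hf
  obtain ⟨V, hV⟩ : ∃ V : ℕ → Set (Eu d), ∀ n : ℕ, V n = bal 0 (2 * n + ‖y₀‖ + 10) :=
    ⟨_, fun _ => rfl⟩
  have hVD : ∀ n, Dom (V n) := fun n => by rw [hV]; exact dom_bal _ _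
  -- balls around the starting points
  have hb1 : ∀ (n : ℕ) (x : Eu d), x ∈ bal 0 1 → bal x (2 * n + 2) ⊆ V n := by
    intro n x hx z hz
    rw [hV]
    unfold bal at *
    rw [Metric.mem_closedBall] at *
    have h1 := dist_triangle z x 0
    have h2 := norm_nonneg y₀
    linarith
  have hb2 : ∀ (n : ℕ) (y : Eu d), y ∈ bal y₀ 1 → bal y (2 * n + 2) ⊆ V n := by
    intro n y hy z hz
    rw [hV]
    unfold bal at *
    rw [Metric.mem_closedBall] at *
    have h1 := dist_triangle z y 0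
    have h2 := dist_triangle y y₀ 0
    rw [dist_zero_right y₀] at h2
    linarith
  have hself : ∀ (n : ℕ) (x : Eu d), x ∈ bal x (2 * n + 2) := by
    intro n x
    unfold bal
    rw [Metric.mem_closedBall, dist_self]
    positivity
  have hcap : ∀ (Q B W : Set (Eu d)), B ⊆ W → (Q ∩ W) ∩ B = Q ∩ B := by
    intro Q B W h
    rw [inter_assoc, inter_eq_right.mpr h]
  have down : ∀ (ω : Ω) (n : ℕ) (x y : Eu d), x ∈ bal 0 1 → y ∈ bal y₀ 1 →
      EE n x y (S' ω ∩ V n) → EE n x y (S' ω) := fun ω n x y hx hy h =>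
    ee_loc hD (lf_inter (hlf ω) _) (hlf ω) (hcap _ _ _ (hb1 n x hx)) (hcap _ _ _ (hb2 n y hy)) h
  have up : ∀ (ω : Ω) (n : ℕ) (x y : Eu d), x ∈ bal 0 1 → y ∈ bal y₀ 1 →
      EE n x y (S' ω) → EE n x y (S' ω ∩ V n) := fun ω n x y hx hy h =>
    ee_loc hD (hlf ω) (lf_inter (hlf ω) _) (hcap _ _ _ (hb1 n x hx)).symm
      (hcap _ _ _ (hb2 n y hy)).symm h
  obtain ⟨F, hF⟩ : ∃ F : ℕ → Ω → ℝ≥0∞, ∀ n ω, F n ω = ff n y₀ (S' ω ∩ V n) := ⟨_, fun _ _ => rfl⟩
  have hFm : ∀ n, Measurable (F n) := by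
    intro n
    have := (hlaw (V n) (hVD n) (ff n y₀) (meas_ff hD hM hS n y₀).2).1
    have e : F n = fun ω => ff n y₀ (S' ω ∩ V n) := funext fun ω => hF n ω
    rw [e]
    exact this
  have hFi : ∀ n, ∫⁻ ω, F n ω ∂Pr = ∫⁻ ω, ff n y₀ (pt ω) ∂PL (leb lam (V n)) := by
    intro n
    simp only [hF]
    exact (hlaw (V n) (hVD n) (ff n y₀) (meas_ff hD hM hS n y₀).2).2
  have hFa : Antitone F := by
    apply antitone_nat_of_succ_le
    intro n ω
    rw [hF, hF]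
    apply ff_le
    intro x hx y hy hx1 hy1 hE
    have h1 := up ω n x y hx1 hy1 (ee_anti hD (hlf ω) (down ω (n + 1) x y hx1 hy1 hE))
    exact ⟨⟨hx.1, hb1 n x hx1 (hself n x)⟩, ⟨hy.1, hb2 n y hy1 (hself n y)⟩, h1⟩
  have hlow : ∀ n, c * (lam * volume (bal (0 : Eu d) 1)) * (lam * volume (bal y₀ 1)) ≤
      ∫⁻ ω, F n ω ∂Pr := by
    intro n
    rw [hFi, hV]
    have h1 := norm_nonneg y₀
    have h2 : (0 : ℝ) ≤ n := Nat.cast_nonneg n
    apply lower hSc hD hM hS hMe hO hd lam y₀ c n _ (by linarith) (by linarith)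
    intro x y hx hy
    exact hcc x y n _ hx hy le_rfl
  have hup : ∫⁻ ω, F 0 ω ∂Pr ≠ ∞ := by
    rw [hFi, hV]
    exact upper hMe hS hPr hd lam y₀ 0 _
  have hkey : ∀ ω, (⨅ n, F n ω) ≠ 0 →
      ∃ x ∈ S ω, ∃ y ∈ S ω, Disjoint (tree (S ω) x) (tree (S ω) y) := by
    intro ω hω
    have h1 : ∀ n, ∃ z ∈ (S' ω ∩ bal 0 1) ×ˢ (S' ω ∩ bal y₀ 1), EE n z.1 z.2 (S' ω) := by
      intro n
      have h2 : ff n y₀ (S' ω ∩ V n) ≠ 0 := by
        rw [← hF]
        intro h0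
        apply hω
        exact le_antisymm ((iInf_le _ n).trans h0.le) zero_le
      obtain ⟨x, hx, y, hy, hx1, hy1, hE⟩ := ff_ne_zero h2
      exact ⟨(x, y), ⟨⟨hx.1, hx1⟩, ⟨hy.1, hy1⟩⟩, down ω n x y hx1 hy1 hE⟩
    have hfin : ((S' ω ∩ bal 0 1) ×ˢ (S' ω ∩ bal y₀ 1)).Finite :=
      (hlf ω _ (dom_bal 0 1).2).prod (hlf ω _ (dom_bal y₀ 1).2)
    have h2 : ∃ z ∈ (S' ω ∩ bal 0 1) ×ˢ (S' ω ∩ bal y₀ 1), ∀ n, EE n z.1 z.2 (S' ω) := by
      by_contra hcon
      push Not at hcon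
      choose! nz hnz using hcon
      obtain ⟨z, hz, hE⟩ := h1 (hfin.toFinset.sup nz)
      apply hnz z hz
      refine ee_anti' hD (hlf ω) ?_ hE
      exact Finset.le_sup (f := nz) (hfin.mem_toFinset.mpr hz)
    obtain ⟨⟨x', y'⟩, hz, hE⟩ := h2
    have hx := hz.1.1
    have hy := hz.2.1
    rw [hS'] at hx hy
    obtain ⟨x, hx, hxx⟩ := hx
    obtain ⟨y, hy, hyy⟩ := hy
    simp only at hxx hyy
    refine ⟨x, hx, y, hy, ?_⟩
    rw [Set.disjoint_left]
    intro p hp hq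
    obtain ⟨k, hk⟩ := mem_iUnion.mp hp
    obtain ⟨l, hl⟩ := mem_iUnion.mp hq
    have h3 : a⁻¹ • p ∈ inv (S' ω) x' k := by
      rw [hS', ← hxx, ((hSc d (S ω) x k).2.2.1 a⁻¹ (inv_pos.mpr ha)).1]
      exact ⟨p, hk, rfl⟩
    have h4 : a⁻¹ • p ∈ inv (S' ω) y' l := by
      rw [hS', ← hyy, ((hSc d (S ω) y l).2.2.1 a⁻¹ (inv_pos.mpr ha)).1]
      exact ⟨p, hl, rfl⟩
    have h5 := (hE (max k l)).2.2
    exact Set.disjoint_left.mp h5 (inv_mono hD (hlf ω) x' (le_max_left k l) h3)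
      (inv_mono hD (hlf ω) y' (le_max_right k l) h4)
  by_contra hcon
  have h0 : Pr {ω | ∃ x ∈ S ω, ∃ y ∈ S ω, Disjoint (tree (S ω) x) (tree (S ω) y)} = 0 :=
    le_antisymm (not_lt.mp hcon) zero_le
  have h1 : ∫⁻ ω, ⨅ n, F n ω ∂Pr = 0 := by
    rw [lintegral_eq_zero_iff (Measurable.iInf hFm)]
    refine measure_mono_null ?_ h0
    intro ω hω
    exact hkey ω hω
  rw [lintegral_iInf hFm hFa hup] at h1
  have h2 : c * (lam * volume (bal (0 : Eu d) 1)) * (lam * volume (bal y₀ 1)) ≤ 0 := by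
    rw [← h1]
    exact le_iInf hlow
  have h3 : (c : ℝ≥0∞) * (lam * volume (bal (0 : Eu d) 1)) * (lam * volume (bal y₀ 1)) ≠ 0 := by
    have b1 : volume (bal (0 : Eu d) 1) ≠ 0 :=
      (Metric.measure_closedBall_pos volume (0 : Eu d) one_pos).ne'
    have b2 : volume (bal y₀ 1) ≠ 0 :=
      (Metric.measure_closedBall_pos volume y₀ one_pos).ne'
    have b3 : (c : ℝ≥0∞) ≠ 0 := ENNReal.coe_ne_zero.mpr hc.ne'
    have b4 : (lam : ℝ≥0∞) ≠ 0 := ENNReal.coe_ne_zero.mpr hlam.ne'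
    exact mul_ne_zero (mul_ne_zero b3 (mul_ne_zero b4 b1)) (mul_ne_zero b4 b2)
  exact h3 (le_antisymm h2 zero_le)

end Pool.Agent.Lib.MP_5349a4_pr.H72
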