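import Pool.Agent.Lib.MP_5349a4_pr.M.Iface3
import Pool.Agent.Lib.MP_5349a4_pr.M.Base

/-!
# TYPI: explore the cluster of `x` in the typed process
-/

set_option autoImplicit false
open MeasureTheory Set
open scoped ENNReal NNReal

namespace Pool.Agent.Lib.MP_5349a4_pr.H72

variable {d : ℕ}

/-- adjacency of typed points -/
def aj (r : ℝ) (a b : Eu d × Bool) : Prop := ad r a.1 b.1

/-- green -/
def gr (a : Eu d × Bool) : Prop := a.2 = true

theorem mem_lift2 {N G : Set (Eu d)} {p : Eu d × Bool} :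
    p ∈ lift2 N G ↔ (p.2 = false ∧ p.1 ∈ N) ∨ (p.2 = true ∧ p.1 ∈ G) := by
  obtain ⟨a, s⟩ := p
  unfold lift2
  constructor
  · rintro (⟨b, hb, hh⟩ | ⟨b, hb, hh⟩)
    · rw [Prod.mk.injEq] at hh
      left
      exact ⟨hh.2.symm, hh.1 ▸ hb⟩
    · rw [Prod.mk.injEq] at hh
      right
      exact ⟨hh.2.symm, hh.1 ▸ hb⟩
  · rintro (⟨h1, h2⟩ | ⟨h1, h2⟩)
    · simp only at h1 h2
      left
      exact ⟨a, h2, by rw [h1]⟩
    · simp only at h1 h2
      right
      exact ⟨a, h2, by rw [h1]⟩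

theorem cl_proj {r : ℝ} {N G : Set (Eu d)} {x : Eu d} {s : Bool} {p : Eu d × Bool}
    (h : p ∈ cl (aj r) (lift2 N G) (x, s)) : p.1 ∈ cl (ad r) (N ∪ G) x := by
  unfold cl at *
  induction h with
  | refl => exact Relation.ReflTransGen.refl
  | tail _ hbc ih =>
    refine Relation.ReflTransGen.tail ih ⟨hbc.1, ?_⟩
    rcases mem_lift2.mp hbc.2 with h | h
    · exact Or.inl h.2
    · exact Or.inr h.2

theorem cl_lift {r : ℝ} {N G : Set (Eu d)} {x : Eu d} (s : Bool) {p : Eu d}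
    (h : p ∈ cl (ad r) (N ∪ G) x) : ∃ t, (p, t) ∈ cl (aj r) (lift2 N G) (x, s) := by
  unfold cl at h
  induction h with
  | refl => exact ⟨s, Relation.ReflTransGen.refl⟩
  | @tail b c _ hbc ih =>
    obtain ⟨t, ht⟩ := ih
    rcases hbc.2 with h | h
    · exact ⟨false, Relation.ReflTransGen.tail ht ⟨hbc.1, mem_lift2.mpr (Or.inl ⟨rfl, h⟩)⟩⟩
    · exact ⟨true, Relation.ReflTransGen.tail ht ⟨hbc.1, mem_lift2.mpr (Or.inr ⟨rfl, h⟩)⟩⟩

theorem con_iff {r : ℝ} {N G : Set (Eu d)} {x : Eu d} (s : Bool) (e : Eu d × Bool) :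
    Con (aj r) (lift2 N G) (x, s) e ↔ Con (ad r) (N ∪ G) x e.1 := by
  constructor
  · rintro ⟨a, ha, hae⟩
    exact ⟨a.1, cl_proj ha, hae⟩
  · rintro ⟨a, ha, hae⟩
    obtain ⟨t, ht⟩ := cl_lift s ha
    exact ⟨(a, t), ht, hae⟩

/-- a green point is connected to `x` -/
theorem first {r : ℝ} {N G : Set (Eu d)} {x : Eu d} (hx : x ∉ G) (h : gco r N G x) :
    ∃ p ∈ clus (aj r) (lift2 N G) (x, false), gr p := by
  obtain ⟨p, hp, hcl⟩ := h
  unfold cl at hcl
  rcases Relation.ReflTransGen.cases_tail hcl with h1 | ⟨a, ha, hap⟩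
  · exact absurd (h1 ▸ hp) hx
  · refine ⟨(p, true), ⟨mem_lift2.mpr (Or.inr ⟨rfl, hp⟩), ?_⟩, rfl⟩
    rw [con_iff]
    exact ⟨a, ha, hap.1⟩

theorem first' {r : ℝ} {N G : Set (Eu d)} {x : Eu d}
    (h : ∃ p ∈ clus (aj r) (lift2 N G) (x, false), gr p) : gco r N G x := by
  obtain ⟨p, ⟨hp, hc⟩, hg⟩ := h
  rcases mem_lift2.mp hp with h1 | h1
  · unfold gr at hg
    rw [h1.1] at hg
    exact absurd hg (by simp)
  · rw [con_iff] at hc
    obtain ⟨a, ha, hap⟩ := hc
    exact ⟨p.1, h1.2, Relation.ReflTransGen.tail ha ⟨hap, Or.inr h1.2⟩⟩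

theorem second {r : ℝ} {N G : Set (Eu d)} {x x' : Eu d} (hx : x' ∉ G) (h : gco r N G x')
    (hc : ¬ Con (ad r) (N ∪ G) x x') :
    Hs (aj r) gr {e | e ∈ lift2 N G ∧ ¬ Con (aj r) (lift2 N G) (x, false) e} (x', false) := by
  have key : ∀ q : Eu d, q ∈ cl (ad r) (N ∪ G) x' → ¬ Con (ad r) (N ∪ G) x q ∧
      ∃ t, (q, t) ∈ cl (aj r) {e | e ∈ lift2 N G ∧ ¬ Con (aj r) (lift2 N G) (x, false) e}
        (x', false) := by
    intro q hq
    unfold cl at hq
    induction hq with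
    | refl => exact ⟨hc, false, Relation.ReflTransGen.refl⟩
    | @tail b c _ hbc ih =>
      obtain ⟨ih1, t, ht⟩ := ih
      have h1 : ¬ Con (ad r) (N ∪ G) x c := by
        rintro ⟨a, ha, hac⟩
        exact ih1 ⟨c, Relation.ReflTransGen.tail ha ⟨hac, hbc.2⟩, ad_symm r b c hbc.1⟩
      refine ⟨h1, ?_⟩
      rcases hbc.2 with h | h
      · refine ⟨false, Relation.ReflTransGen.tail ht ⟨hbc.1, mem_lift2.mpr (Or.inl ⟨rfl, h⟩), ?_⟩⟩
        rw [con_iff]
        exact h1
      · refine ⟨true, Relation.ReflTransGen.tail ht ⟨hbc.1, mem_lift2.mpr (Or.inr ⟨rfl, h⟩), ?_⟩⟩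
        rw [con_iff]
        exact h1
  obtain ⟨p, hp, hcl⟩ := h
  have h1 := (key p hcl).1
  unfold cl at hcl
  rcases Relation.ReflTransGen.cases_tail hcl with h2 | ⟨a, ha, hap⟩
  · exact absurd (h2 ▸ hp) hx
  · obtain ⟨t, ht⟩ := (key a ha).2
    refine ⟨(p, true), Relation.ReflTransGen.tail ht ⟨hap.1, mem_lift2.mpr (Or.inr ⟨rfl, hp⟩), ?_⟩,
      rfl⟩
    rw [con_iff]
    exact h1

theorem second' {r : ℝ} {N G : Set (Eu d)} {x : Eu d}
    (h : Hs (aj r) gr (lift2 N G) (x, false)) : gco r N G x := by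
  obtain ⟨a, ha, hg⟩ := h
  have h1 := cl_proj ha
  unfold cl at ha
  rcases Relation.ReflTransGen.cases_tail ha with h2 | ⟨b, hb, hba⟩
  · rw [h2] at hg
    unfold gr at hg
    exact absurd hg (by simp)
  · rcases mem_lift2.mp hba.2 with h3 | h3
    · unfold gr at hg
      rw [h3.1] at hg
      exact absurd hg (by simp)
    · exact ⟨a.1, h3.2, h1⟩

theorem hs_mono {E : Type} {adj : E → E → Prop} {s : E → Prop} {P Q : Set E} (h : P ⊆ Q) {x : E}
    (hs : Hs adj s P x) : Hs adj s Q x := by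
  obtain ⟨a, ha, hsa⟩ := hs
  refine ⟨a, ?_, hsa⟩
  have ha' : Relation.ReflTransGen (step adj P) x a := ha
  exact Relation.ReflTransGen.mono
    (fun u v (huv : step adj P u v) => (⟨huv.1, h huv.2⟩ : step adj Q u v)) _ _ ha'

theorem madj_aj (r : ℝ) : MAdj (aj r : Eu d × Bool → Eu d × Bool → Prop) := by
  unfold MAdj aj
  exact (show Measurable fun q : (Eu d × Bool) × (Eu d × Bool) => (q.1.1, q.2.1) by fun_prop)
    (madj_ad r)

/-- the typed intensity -/
noncomputable def tm (ρn ρg : Measure (Eu d)) : Measure (Eu d × Bool) :=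
  ρn.map (fun x => (x, false)) + ρg.map (fun x => (x, true))

theorem tm_fin (ρn ρg : Measure (Eu d)) [IsFiniteMeasure ρn] [IsFiniteMeasure ρg] :
    IsFiniteMeasure (tm ρn ρg) := by
  unfold tm
  infer_instance

theorem tm_null (ρn ρg : Measure (Eu d)) [NullSingletonClass ρn] [NullSingletonClass ρg] :
    NullSingletonClass (tm ρn ρg) := by
  constructor
  rintro ⟨a, s⟩
  unfold tm
  have e1 : (fun x : Eu d => (x, false)) ⁻¹' {(a, s)} ⊆ {a} := by
    intro x hx
    rw [mem_preimage, mem_singleton_iff, Prod.mk.injEq] at hx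
    exact hx.1
  have e2 : (fun x : Eu d => (x, true)) ⁻¹' {(a, s)} ⊆ {a} := by
    intro x hx
    rw [mem_preimage, mem_singleton_iff, Prod.mk.injEq] at hx
    exact hx.1
  rw [Measure.add_apply, Measure.map_apply (by fun_prop) (measurableSet_singleton _),
    Measure.map_apply (by fun_prop) (measurableSet_singleton _)]
  rw [measure_mono_null e1 (measure_singleton a), measure_mono_null e2 (measure_singleton a),
    add_zero]

/-- events of the typed process -/
theorem typ_prod (hT : TypStatement) (hO : MOpsStatement) (hP : ProbStatement)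
    (ρn ρg : Measure (Eu d)) [IsFiniteMeasure ρn] [IsFiniteMeasure ρg]
    (K : Set (Eu d × Bool) → Prop) (hK : ME K) :
    ((PL ρn).prod (PL ρg)) {q | K (lift2 (pt q.1) (pt q.2))} =
      ∫⁻ ω, ind (K (pt ω)) ∂PL (tm ρn ρg) := by
  have hp1 := (hP (Eu d) ρn).1
  have hp2 := (hP (Eu d) ρg).1
  obtain ⟨u, hu, hu2⟩ := hO.1 (Eu d × Bool)
  obtain ⟨m1, hm1, hm1'⟩ := hO.2.2 (Eu d) (Eu d × Bool) (fun x => (x, false)) (by fun_prop)
  obtain ⟨m2, hm2, hm2'⟩ := hO.2.2 (Eu d) (Eu d × Bool) (fun x => (x, true)) (by fun_prop)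
  have hl : ∀ a b : Cfg (Eu d), pt (u (m1 a, m2 b)) = lift2 (pt a) (pt b) := by
    intro a b
    rw [hu2, hm1', hm2']
    rfl
  have hms : MeasurableSet {q : Cfg (Eu d) × Cfg (Eu d) | K (lift2 (pt q.1) (pt q.2))} := by
    have h0 := (show Measurable fun q : Cfg (Eu d) × Cfg (Eu d) => u (m1 q.1, m2 q.2) by
      fun_prop) hK
    have e : {q : Cfg (Eu d) × Cfg (Eu d) | K (lift2 (pt q.1) (pt q.2))} =
        (fun q : Cfg (Eu d) × Cfg (Eu d) => u (m1 q.1, m2 q.2)) ⁻¹' {ω | K (pt ω)} := by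
      ext q
      simp only [mem_preimage, mem_ofPred_eq, hl]
    rw [e]
    exact h0
  have hCM : CM (fun Q : Set (Eu d × Bool) => ind (K Q)) := measurable_ind hK
  rw [← lintegral_ind hms, lintegral_prod _ (measurable_ind hms).aemeasurable]
  exact (hT d ρn ρg (fun Q => ind (K Q)) hCM).symm

theorem typi (hT : TypStatement) (hE : ExplStatement) (hC : ConMStatement)
    (hO : MOpsStatement) (hS : MSumStatement) (hR : MRestrStatement) (hP : ProbStatement) :
    TypIStatement := by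
  intro d ρn ρg _ _ _ _ r x x'
  have hp1 := (hP (Eu d) ρn).1
  have hp2 := (hP (Eu d) ρg).1
  have hfin := tm_fin ρn ρg
  have hnull := tm_null ρn ρg
  have hp3 := (hP (Eu d × Bool) (tm ρn ρg)).1
  have hC' := hC (Eu d × Bool) (aj r) (madj_aj r)
  -- events
  have hgr : MeasurableSet {a : Eu d × Bool | gr a} := by
    unfold gr
    exact measurable_snd (measurableSet_singleton true)
  have hK1 : ME (fun Q : Set (Eu d × Bool) => ∃ p ∈ clus (aj r) Q (x, false), gr p) := by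
    have h0 := hS.2.1 Unit (Eu d × Bool)
      (fun _ p Q => Con (aj r) Q (x, false) p ∧ gr p) (by
        refine MeasurableSet.inter ?_ ?_
        · exact (show Measurable fun q : Unit × (Eu d × Bool) × Cfg (Eu d × Bool) =>
            (((x, false) : Eu d × Bool), q.2.1, q.2.2) by fun_prop) hC'.1
        · exact (show Measurable fun q : Unit × (Eu d × Bool) × Cfg (Eu d × Bool) =>
            q.2.1 by fun_prop) hgr)
    have h1 := (show Measurable fun ω : Cfg (Eu d × Bool) => ((), ω) by fun_prop) h0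
    unfold ME
    convert h1 using 1
    ext ω
    simp only [clus, mem_preimage, mem_ofPred_eq]
    constructor
    · rintro ⟨p, ⟨hp1, hp2⟩, hp3⟩
      exact ⟨p, hp1, hp2, hp3⟩
    · rintro ⟨p, hp1, hp2, hp3⟩
      exact ⟨p, ⟨hp1, hp2⟩, hp3⟩
  have hK0 : ME (fun Q : Set (Eu d × Bool) => ∃ p ∈ Q, gr p) := by
    have h0 := hS.2.1 Unit (Eu d × Bool) (fun _ p _ => gr p)
      ((show Measurable fun q : Unit × (Eu d × Bool) × Cfg (Eu d × Bool) =>
            q.2.1 by fun_prop) hgr)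
    exact (show Measurable fun ω : Cfg (Eu d × Bool) => ((), ω) by fun_prop) h0
  have hK2 : ∀ z : Eu d, ME (fun Q : Set (Eu d × Bool) => Hs (aj r) gr Q (z, false)) := by
    intro z
    have h0 := hC'.2.1 (fun _ a => gr a)
      ((show Measurable fun q : (Eu d × Bool) × (Eu d × Bool) => q.2 by fun_prop) hgr)
    exact (show Measurable fun ω : Cfg (Eu d × Bool) =>
      (((z, false) : Eu d × Bool), ((z, false) : Eu d × Bool), ω) by fun_prop) h0
  obtain ⟨rr, hrr, hrr2⟩ := hR (Cfg (Eu d × Bool)) (Eu d × Bool)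
    {q | ¬ Con (aj r) (pt q.1) (x, false) q.2} ((show Measurable fun
      q : Cfg (Eu d × Bool) × (Eu d × Bool) => (((x, false) : Eu d × Bool), q.2, q.1) by
        fun_prop) hC'.1).compl
  have hK3 : ME (fun Q : Set (Eu d × Bool) => Hs (aj r) gr
      {e | e ∈ Q ∧ ¬ Con (aj r) Q (x, false) e} (x', false)) := by
    have h0 := (show Measurable fun ω : Cfg (Eu d × Bool) => rr (ω, ω) by fun_prop) (hK2 x')
    unfold ME
    convert h0 using 1
    ext ω
    simp only [mem_preimage, mem_ofPred_eq, hrr2]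
  have hnull1 : ∀ᵐ q ∂((PL ρn).prod (PL ρg)), x ∉ pt q.2 ∧ x' ∉ pt q.2 := by
    have h0 := (hP (Eu d) ρg).2 {x, x'} (by simp) (by
      rw [← singleton_union]
      exact measure_union_null (measure_singleton x) (measure_singleton x'))
    have h1 : ∀ᵐ ω ∂PL ρg, x ∉ pt ω ∧ x' ∉ pt ω := by
      filter_upwards [h0] with ω hω
      exact ⟨fun h => hω x h (by simp), fun h => hω x' h (by simp)⟩
    exact Measure.quasiMeasurePreserving_snd.ae h1
  obtain ⟨KK, hKK⟩ : ∃ KK : Set (Eu d × Bool) → Prop, ∀ Q, KK Q ↔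
      ((∃ p ∈ clus (aj r) Q (x, false), gr p) ∧ Hs (aj r) gr
        {e | e ∈ Q ∧ ¬ Con (aj r) Q (x, false) e} (x', false)) := ⟨_, fun _ => Iff.rfl⟩
  have hKKm : ME KK := by
    have h0 := hK1.inter hK3
    unfold ME
    convert h0 using 1
    ext ω
    simp only [mem_inter_iff, mem_ofPred_eq, hKK]
  have h1 : ((PL ρn).prod (PL ρg)) {q | KK (lift2 (pt q.1) (pt q.2))} ≤
      gp r ρn ρg x * gp r ρn ρg x' := by
    rw [typ_prod hT hO hP ρn ρg KK hKKm]
    have h2 := hE (Eu d × Bool) (tm ρn ρg) (aj r) (x, false)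
      (fun C R => ind (∃ p ∈ C, gr p) * ind (Hs (aj r) gr R (x', false))) (madj_aj r) (by
        refine Measurable.mul ?_ ?_
        · exact (measurable_ind hK0).comp measurable_fst
        · exact (measurable_ind (hK2 x')).comp measurable_snd)
    calc ∫⁻ ω, ind (KK (pt ω)) ∂PL (tm ρn ρg)
        = ∫⁻ ω, ind (∃ p ∈ clus (aj r) (pt ω) (x, false), gr p) *
            ind (Hs (aj r) gr {e | e ∈ pt ω ∧ ¬ Con (aj r) (pt ω) (x, false) e} (x', false))
            ∂PL (tm ρn ρg) := by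
          refine lintegral_congr fun ω => ?_
          rw [← ind_and]
          exact ind_congr (hKK _)
      _ = ∫⁻ ω, ∫⁻ ω', ind (∃ p ∈ clus (aj r) (pt ω) (x, false), gr p) *
            ind (Hs (aj r) gr {e | e ∈ pt ω' ∧ ¬ Con (aj r) (pt ω) (x, false) e} (x', false))
            ∂PL (tm ρn ρg) ∂PL (tm ρn ρg) := h2
      _ ≤ ∫⁻ ω, ∫⁻ ω', ind (∃ p ∈ clus (aj r) (pt ω) (x, false), gr p) *
            ind (Hs (aj r) gr (pt ω') (x', false))
            ∂PL (tm ρn ρg) ∂PL (tm ρn ρg) := by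
          refine lintegral_mono fun ω => lintegral_mono fun ω' => ?_
          refine mul_le_mul' le_rfl (ind_mono fun h => hs_mono ?_ h)
          intro e he
          exact he.1
      _ = (∫⁻ ω, ind (∃ p ∈ clus (aj r) (pt ω) (x, false), gr p) ∂PL (tm ρn ρg)) *
            ∫⁻ ω', ind (Hs (aj r) gr (pt ω') (x', false)) ∂PL (tm ρn ρg) := by
          rw [← lintegral_mul_const _ (measurable_ind hK1)]
          refine lintegral_congr fun ω => ?_
          rw [lintegral_const_mul _ (measurable_ind (hK2 x'))]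
      _ ≤ gp r ρn ρg x * gp r ρn ρg x' := by
          rw [← typ_prod hT hO hP ρn ρg _ hK1, ← typ_prod hT hO hP ρn ρg _ (hK2 x')]
          refine mul_le_mul' (measure_mono ?_) (measure_mono ?_)
          · intro q hq
            exact first' hq
          · intro q hq
            exact second' hq
  have h3 : ((PL ρn).prod (PL ρg))
      {q | gco r (pt q.1) (pt q.2) x ∧ gco r (pt q.1) (pt q.2) x'} ≤
      ((PL ρn).prod (PL ρg)) ({q | KK (lift2 (pt q.1) (pt q.2))} ∪
        {q | Con (ad r) (pt q.1 ∪ pt q.2) x x' ∧ gco r (pt q.1) (pt q.2) x}) := by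
    apply measure_mono_ae
    filter_upwards [hnull1] with q hq
    intro hq2
    obtain ⟨hq3, hq4⟩ := hq2
    by_cases hcon : Con (ad r) (pt q.1 ∪ pt q.2) x x'
    · exact Or.inr ⟨hcon, hq3⟩
    · left
      exact (hKK _).mpr ⟨first hq.1 hq3, second hq.2 hq4 hcon⟩
  refine h3.trans ((measure_union_le _ _).trans ?_)
  exact add_le_add h1 le_rfl

end Pool.Agent.Lib.MP_5349a4_pr.H72
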